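import Pool.Agent.Q72.AL.Stm4

set_option autoImplicit false

open Complex MeasureTheory Filter Topology Set
open H345 (Zo aa XX)
open Pool.Agent.Q72.AL

namespace Pool.Agent.Q247.AL

/-- Job AH1B (project AL of helper72): as `Pool.Agent.Q125.AL.ah1w` (helper125). -/
theorem ah1b (h : J_ENUM) : J_AH1B := by
  intro hRH a
  obtain ⟨hE1, hE2, hE3⟩ := h hRH
  refine ⟨max (16 * Real.exp (2 * |a| + 6)) 100, fun X hX hS => ?_⟩
  have hX2 : 16 * Real.exp (2 * |a| + 6) ≤ X := (le_max_left _ _).trans hX
  have hX3 : (100 : ℝ) ≤ X := (le_max_right _ _).trans hX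
  have hlX : 2 * |a| + 6 ≤ Real.log (X / 16) := by
    rw [Real.le_log_iff_exp_le (by linarith)]
    linarith
  have hpos : 0 < Real.log (X / 16) := by
    have := abs_nonneg a
    linarith
  have key : ∀ n : ℕ, 1 ≤ n → X / 16 ≤ SG.ord n → SG.ord n ≤ 24 * X →
      1 / Real.log (X / 16) ≤ SG.ord (n + 1) - SG.ord n := by
    intro n hn1 hn2 hn3
    have h1 : 2 ≤ (SG.ord (n + 1) - SG.ord n) * (Real.log (SG.ord n) + a) := by
      obtain ⟨k, hk, h5⟩ := hS n hn1 hn2 hn3
      have hlog : 1 ≤ Real.log (SG.ord n) := by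
        rw [Real.le_log_iff_exp_le (by linarith)]
        have := Real.exp_one_lt_d9
        linarith
      have h6 : 1 / 8 / Real.log (SG.ord n) ≤ 1 / 8 := by
        rw [div_le_iff₀ (by linarith)]
        linarith
      have hk' : (1 : ℝ) ≤ k := by exact_mod_cast hk
      have h7 : (3 / 8 : ℝ) ≤ (SG.ord (n + 1) - SG.ord n) * (Real.log (SG.ord n) + a) / (2 * Real.pi) := by
        have := (abs_le.mp h5).1
        linarith
      rw [le_div_iff₀ (by positivity)] at h7
      have := Real.pi_gt_d2
      linarith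
    have h2 : 0 ≤ SG.ord (n + 1) - SG.ord n := by
      have := SG.ord_mono hn1 (by omega : n ≤ n + 1)
      linarith
    have h3 : Real.log (SG.ord n) ≤ Real.log (X / 16) + 6 := by
      have h4 : Real.log (SG.ord n) ≤ Real.log (384 * (X / 16)) :=
        Real.log_le_log (by linarith) (by linarith)
      have h5 : Real.log (384 * (X / 16)) = Real.log 384 + Real.log (X / 16) :=
        Real.log_mul (by norm_num) (by linarith)
      have h6 : Real.log 384 ≤ 6 := by
        rw [Real.log_le_iff_le_exp (by norm_num)]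
        have h8 := Real.exp_one_gt_d9
        have h7 : Real.exp 6 = Real.exp 1 ^ 6 := by rw [← Real.exp_nat_mul]; norm_num
        rw [h7]
        calc (384 : ℝ) ≤ 2.7182 ^ 6 := by norm_num
          _ ≤ Real.exp 1 ^ 6 := by
            apply pow_le_pow_left₀ (by norm_num)
            linarith
      linarith
    have h4 : Real.log (SG.ord n) + a ≤ 2 * Real.log (X / 16) := by
      have := le_abs_self a
      have := abs_nonneg a
      linarith
    have h5 : (SG.ord (n + 1) - SG.ord n) * (Real.log (SG.ord n) + a) ≤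
        (SG.ord (n + 1) - SG.ord n) * (2 * Real.log (X / 16)) :=
      mul_le_mul_of_nonneg_left h4 h2
    rw [div_le_iff₀ hpos]
    linarith
  constructor
  · intro t ht h1 h2
    have htpos : 0 < t := by linarith
    refine hE3 t ht htpos ?_
    intro n hn1 hn2 hn3
    have := key n hn1 (by rw [hn2]; exact h1) (by rw [hn2]; exact h2)
    rw [hn2, hn3, sub_self] at this
    have : 0 < 1 / Real.log (X / 16) := by positivity
    linarith
  · intro t ht t' ht' h1 h2 h3
    have htpos : 0 < t := by linarith
    obtain ⟨n, hn1, hn2⟩ := hE2 t ht htpos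
    obtain ⟨m, hm1, hm2⟩ := hE2 t' ht' (by linarith)
    have hnm : n < m := by
      by_contra hc
      have := SG.ord_mono hm1 (not_lt.mp hc)
      rw [hn2, hm2] at this
      linarith
    have h4 := SG.ord_mono (by omega : 1 ≤ n + 1) (by omega : n + 1 ≤ m)
    have h5 := key n hn1 (by rw [hn2]; exact h1) (by rw [hn2]; linarith)
    rw [hm2] at h4
    rw [hn2] at h5
    linarith

end Pool.Agent.Q247.AL
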