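import Pool.Agent.Q72.AL.Stm

/-!
# The mean value theorem for the smoothed Möbius sums
-/

set_option autoImplicit false

open Complex MeasureTheory Filter Topology Set

namespace Pool.Agent.Q247.AL

open Pool.Agent.Q72.AL

noncomputable section

namespace MVaux

lemma wt_meas : Measurable wt := by
  unfold wt
  exact measurable_const.max (Real.measurable_log.min (measurable_const.sub Real.measurable_log))

/-- the kernel -/
def kk (n m : ℕ) : ℝ := 1 / ((n : ℝ) - (m : ℝ)) ^ 2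

lemma kk_nonneg (n m : ℕ) : 0 ≤ kk n m := by unfold kk; positivity

lemma kk_comm (n m : ℕ) : kk n m = kk m n := by
  unfold kk
  rw [show ((n : ℝ) - m) ^ 2 = ((m : ℝ) - n) ^ 2 by ring]

/-- the sum of the kernel over the integers -/
def HH : ℝ := ∑' j : ℤ, 1 / (j : ℝ) ^ 2

lemma HH_nonneg : 0 ≤ HH := tsum_nonneg fun j => by positivity

lemma hsum : Summable fun j : ℤ => 1 / (j : ℝ) ^ 2 :=
  Real.summable_one_div_int_pow.2 (by norm_num)

/-- summation against the kernel -/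
lemma kk_sum (a : ℕ → ℝ) (ha : ∀ n, 0 ≤ a n) (hs : Summable a) :
    Summable (fun p : ℕ × ℕ => a p.1 * kk p.1 p.2) ∧
    ∑' p : ℕ × ℕ, a p.1 * kk p.1 p.2 ≤ (∑' n, a n) * HH := by
  have hS : Summable (fun q : ℕ × ℤ => a q.1 * (1 / (q.2 : ℝ) ^ 2)) :=
    Summable.mul_of_nonneg hs hsum (fun n => ha n) (fun j => by positivity)
  let i : ℕ × ℕ → ℕ × ℤ := fun p => (p.1, (p.1 : ℤ) - p.2)
  have hi : Function.Injective i := by
    rintro ⟨a1, b1⟩ ⟨a2, b2⟩ h
    simp only [i, Prod.mk.injEq] at h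
    obtain ⟨h1, h2⟩ := h
    subst h1
    simp only [Prod.mk.injEq, true_and]
    omega
  have hcomp : (fun q : ℕ × ℤ => a q.1 * (1 / (q.2 : ℝ) ^ 2)) ∘ i =
      fun p : ℕ × ℕ => a p.1 * kk p.1 p.2 := by
    funext p
    simp only [Function.comp, i, kk]
    push_cast
    rfl
  refine ⟨hcomp ▸ hS.comp_injective hi, ?_⟩
  have h1 := tsum_comp_le_tsum_of_inj hS (fun q => mul_nonneg (ha q.1) (by positivity)) hi
  rw [hcomp] at h1
  refine h1.trans (le_of_eq ?_)
  rw [HH]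
  exact (hs.tsum_mul_tsum hsum hS).symm

/-- summation against the kernel, second variable -/
lemma kk_sum' (a : ℕ → ℝ) (ha : ∀ n, 0 ≤ a n) (hs : Summable a) :
    Summable (fun p : ℕ × ℕ => a p.2 * kk p.1 p.2) ∧
    ∑' p : ℕ × ℕ, a p.2 * kk p.1 p.2 ≤ (∑' n, a n) * HH := by
  have h := kk_sum a ha hs
  have hfun : (fun p : ℕ × ℕ => a p.2 * kk p.1 p.2) =
      (fun p : ℕ × ℕ => a p.1 * kk p.1 p.2) ∘ (Equiv.prodComm ℕ ℕ) := by
    funext p
    simp [kk_comm p.1 p.2]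
  constructor
  · rw [hfun]
    exact (Equiv.summable_iff (Equiv.prodComm ℕ ℕ)).2 h.1
  · rw [hfun]
    have := Equiv.tsum_eq (Equiv.prodComm ℕ ℕ) (fun p : ℕ × ℕ => a p.1 * kk p.1 p.2)
    have e : (∑' p, ((fun p : ℕ × ℕ => a p.1 * kk p.1 p.2) ∘ (Equiv.prodComm ℕ ℕ)) p) =
        ∑' p : ℕ × ℕ, a p.1 * kk p.1 p.2 := this
    rw [e]
    exact h.2

/-- the elementary inequality for one pair -/
lemma pair {a b : ℝ} {n m : ℕ} (hn : 1 ≤ n) (hnm : n < m) {ξ : ℝ}
    (hξ : ((m : ℝ) - n) / m ≤ |ξ|) :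
    1 / ξ ^ 2 * (|a| * |b|) ≤
      4 * (|a| * |b|) + 2 * ((n : ℝ) ^ 2 * a ^ 2 * kk n m) + 2 * ((m : ℝ) ^ 2 * b ^ 2 * kk n m) := by
  have hn0 : (1 : ℝ) ≤ n := by exact_mod_cast hn
  have hm0 : (n : ℝ) < m := by exact_mod_cast hnm
  have hm1 : (0 : ℝ) < m := by linarith
  have hd : (0 : ℝ) < (m : ℝ) - n := by linarith
  have hq : (0 : ℝ) < ((m : ℝ) - n) / m := div_pos hd hm1
  have hab : 0 ≤ |a| * |b| := by positivity
  have h1 : 1 / ξ ^ 2 ≤ (m : ℝ) ^ 2 / ((m : ℝ) - n) ^ 2 := by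
    rw [← sq_abs ξ]
    calc 1 / |ξ| ^ 2 ≤ 1 / (((m : ℝ) - n) / m) ^ 2 :=
          one_div_le_one_div_of_le (by positivity) (pow_le_pow_left₀ hq.le hξ 2)
      _ = (m : ℝ) ^ 2 / ((m : ℝ) - n) ^ 2 := by
          rw [div_pow, one_div_div]
  have hk : kk n m = 1 / ((m : ℝ) - n) ^ 2 := by
    rw [kk_comm]; rfl
  have hkn := kk_nonneg n m
  refine (mul_le_mul_of_nonneg_right h1 hab).trans ?_
  have hA : 0 ≤ (n : ℝ) ^ 2 * a ^ 2 * kk n m := by positivity
  have hB : 0 ≤ (m : ℝ) ^ 2 * b ^ 2 * kk n m := by positivity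
  rcases le_or_gt (m : ℝ) (2 * n) with h2 | h2
  · have h3 : (m : ℝ) ^ 2 / ((m : ℝ) - n) ^ 2 * (|a| * |b|) = (m : ℝ) ^ 2 * (|a| * |b|) * kk n m := by
      rw [hk]; ring
    rw [h3]
    have h4 : (m : ℝ) ^ 2 * (|a| * |b|) ≤ 2 * ((n : ℝ) ^ 2 * a ^ 2) + 2 * ((m : ℝ) ^ 2 * b ^ 2) := by
      have h5 : (m : ℝ) ^ 2 ≤ 4 * (n : ℝ) ^ 2 := by nlinarith
      have h6 : 2 * (|a| * |b|) ≤ a ^ 2 + b ^ 2 := by
        have := sq_nonneg (|a| - |b|)
        rw [← sq_abs a, ← sq_abs b]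
        nlinarith
      have h7 : (m : ℝ) ^ 2 * (|a| * |b|) ≤ 4 * (n : ℝ) ^ 2 * (|a| * |b|) :=
        mul_le_mul_of_nonneg_right h5 hab
      have h8 : (n : ℝ) ^ 2 * (2 * (|a| * |b|)) ≤ (n : ℝ) ^ 2 * (a ^ 2 + b ^ 2) :=
        mul_le_mul_of_nonneg_left h6 (by positivity)
      have h9 : (n : ℝ) ^ 2 * b ^ 2 ≤ (m : ℝ) ^ 2 * b ^ 2 :=
        mul_le_mul_of_nonneg_right (pow_le_pow_left₀ (by linarith) hm0.le 2) (by positivity)
      nlinarith
    have h10 := mul_le_mul_of_nonneg_right h4 hkn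
    nlinarith
  · have h3 : (m : ℝ) ^ 2 / ((m : ℝ) - n) ^ 2 ≤ 4 := by
      rw [div_le_iff₀ (by positivity)]
      nlinarith
    have h4 := mul_le_mul_of_nonneg_right h3 hab
    linarith

lemma log_gap {n m : ℕ} (hn : 1 ≤ n) (hnm : n < m) :
    ((m : ℝ) - n) / m ≤ Real.log m - Real.log n := by
  have hn0 : (1 : ℝ) ≤ n := by exact_mod_cast hn
  have hm0 : (n : ℝ) < m := by exact_mod_cast hnm
  rw [← Real.log_div (by linarith) (by linarith)]
  have := Real.one_sub_inv_le_log_of_pos (x := (m : ℝ) / n)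
    (div_pos (by linarith) (by linarith))
  rw [inv_div] at this
  rw [sub_div, div_self (by linarith)]
  exact this

/-- the off-diagonal inequality -/
lemma offdiag {c : ℕ → ℝ} (h0 : c 0 = 0) {n m : ℕ} (hne : n ≠ m) :
    1 / (Real.log m - Real.log n) ^ 2 * (|c n| * |c m|) ≤
      4 * (|c n| * |c m|) + 2 * ((n : ℝ) ^ 2 * c n ^ 2 * kk n m) +
        2 * ((m : ℝ) ^ 2 * c m ^ 2 * kk n m) := by
  rcases Nat.eq_zero_or_pos n with hn | hn
  · subst hn
    have := kk_nonneg 0 m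
    rw [h0, abs_zero, zero_mul, mul_zero]
    positivity
  rcases Nat.eq_zero_or_pos m with hm | hm
  · subst hm
    have := kk_nonneg n 0
    rw [h0, abs_zero, mul_zero, mul_zero]
    positivity
  rcases lt_or_gt_of_ne hne with h | h
  · exact pair hn h ((log_gap hn h).trans (le_abs_self _))
  · have h1 : ((n : ℝ) - m) / n ≤ |Real.log m - Real.log n| := by
      rw [abs_sub_comm]
      exact (log_gap hm h).trans (le_abs_self _)
    have h2 := pair (a := c m) (b := c n) hm h h1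
    rw [kk_comm m n, mul_comm |c m| |c n|] at h2
    linarith

lemma hasSum_prod (f g : ℕ → ℂ) (a b : ℂ) (hf : HasSum f a) (hg : HasSum g b)
    (hfs : Summable fun n => ‖f n‖) (hgs : Summable fun n => ‖g n‖) :
    HasSum (fun p : ℕ × ℕ => f p.1 * g p.2) (a * b) := by
  have h := summable_mul_of_summable_norm hfs hgs
  rw [← hf.tsum_eq, ← hg.tsum_eq, tsum_mul_tsum_of_summable_norm hfs hgs]
  exact h.hasSum

end MVaux

open MVaux

theorem mv (h1 : J_WT) (h2 : J_DDB) (h3 : J_DDC) : J_MV := by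
  obtain ⟨hw, hwc, hW0, C1, hC1, hJ⟩ := h1
  obtain ⟨C2, hC2, hB⟩ := h2
  refine ⟨C1 * (4 * C2 ^ 2 + 4 * HH * C2), by have := HH_nonneg; positivity, ?_⟩
  intro κ v X hκ1 hκ2 hX
  obtain ⟨hs1, hb1, hs2, hb2, hs3, -, -⟩ := hB κ v hκ1 hκ2
  have hX0 : 0 < X := by linarith
  set c : ℕ → ℝ := cf κ v with hc
  have hc0 : c 0 = 0 := by simp [hc, cf]
  have hcs : Summable fun n => |c n| := hs1
  -- the square of the Dirichlet series
  have hsq : ∀ T : ℝ, HasSum (fun p : ℕ × ℕ => ((c p.1 : ℝ) : ℂ) * ((c p.2 : ℝ) : ℂ) *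
      cexp (((T * (Real.log p.2 - Real.log p.1) : ℝ) : ℂ) * I)) (((‖DD κ v T‖ ^ 2 : ℝ) : ℂ)) := by
    intro T
    set f : ℕ → ℂ := fun n => ((c n : ℝ) : ℂ) * cexp (-((T * Real.log n : ℝ) : ℂ) * I) with hf
    have hnorm : ∀ n, ‖f n‖ = |c n| := by
      intro n
      rw [hf]
      simp only [norm_mul, Complex.norm_real, Real.norm_eq_abs]
      rw [← Complex.ofReal_neg, Complex.norm_exp_ofReal_mul_I, mul_one]
    have hfs : Summable fun n => ‖f n‖ := by simpa only [hnorm] using hcs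
    have hDD : DD κ v T = ∑' n, f n := rfl
    have hsum : HasSum f (DD κ v T) := by
      rw [hDD]; exact hfs.of_norm.hasSum
    have hsum' : HasSum (fun n => star (f n)) (star (DD κ v T)) := hsum.star
    have hfs' : Summable fun n => ‖star (f n)‖ := by
      simpa only [norm_star] using hfs
    have hprod := hasSum_prod f (fun n => star (f n)) _ _ hsum hsum' hfs hfs'
    have hval : DD κ v T * star (DD κ v T) = (((‖DD κ v T‖ ^ 2 : ℝ) : ℂ)) := by
      have := Complex.mul_conj (DD κ v T)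
      rw [Complex.normSq_eq_norm_sq] at this
      exact this
    rw [hval] at hprod
    convert hprod using 1
    funext p
    have hst : star (f p.2) = ((c p.2 : ℝ) : ℂ) * cexp (((T * Real.log p.2 : ℝ) : ℂ) * I) := by
      have : star (f p.2) = (starRingEnd ℂ) (f p.2) := rfl
      rw [this, hf]
      simp only [map_mul, Complex.conj_ofReal, ← Complex.exp_conj, map_neg, Complex.conj_I]
      congr 2
      ring
    rw [hst, hf]
    simp only
    rw [show ((c p.1 : ℝ) : ℂ) * cexp (-((T * Real.log p.1 : ℝ) : ℂ) * I) *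
      (((c p.2 : ℝ) : ℂ) * cexp (((T * Real.log p.2 : ℝ) : ℂ) * I)) =
      ((c p.1 : ℝ) : ℂ) * ((c p.2 : ℝ) : ℂ) * (cexp (-((T * Real.log p.1 : ℝ) : ℂ) * I) *
        cexp (((T * Real.log p.2 : ℝ) : ℂ) * I)) by ring, ← Complex.exp_add]
    congr 2
    push_cast
    ring
  -- the kernel integral
  set J : ℝ → ℂ := fun ξ => ∫ T in X..(2 * X), ((wt (T / X) : ℝ) : ℂ) *
    cexp (((T * ξ : ℝ) : ℂ) * I) with hJdef
  have hJb : ∀ ξ, ξ ≠ 0 → ‖J ξ‖ ≤ C1 / (X * ξ ^ 2) := fun ξ hξ => hJ X ξ hX0 hξ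
  have hJ0 : J 0 = ((X * W0 : ℝ) : ℂ) := by
    have e1 : J 0 = ∫ T in X..(2 * X), ((wt (T / X) : ℝ) : ℂ) := by
      rw [hJdef]
      simp
    rw [e1, intervalIntegral.integral_ofReal, intervalIntegral.integral_comp_div wt hX0.ne',
      div_self hX0.ne', mul_div_assoc, div_self hX0.ne', mul_one, smul_eq_mul, W0]
  set II : ℕ × ℕ → ℂ := fun p => ((c p.1 : ℝ) : ℂ) * ((c p.2 : ℝ) : ℂ) *
    J (Real.log p.2 - Real.log p.1) with hII
  have hcc : Summable fun p : ℕ × ℕ => |c p.1| * |c p.2| :=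
    Summable.mul_of_nonneg hcs hcs (fun n => abs_nonneg _) (fun n => abs_nonneg _)
  have hmem : ∀ T ∈ Set.uIoc X (2 * X), T / X ∈ Icc (1 : ℝ) 2 := by
    intro T hT
    rw [Set.uIoc_of_le (by linarith)] at hT
    exact ⟨(one_le_div hX0).2 hT.1.le, (div_le_iff₀ hX0).2 hT.2⟩
  have hint : HasSum II ((∫ T in X..(2 * X), wt (T / X) * ‖DD κ v T‖ ^ 2 : ℝ) : ℂ) := by
    have h := intervalIntegral.hasSum_integral_of_dominated_convergence (μ := volume) (a := X)
      (b := 2 * X)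
      (F := fun (p : ℕ × ℕ) (T : ℝ) => ((wt (T / X) : ℝ) : ℂ) * (((c p.1 : ℝ) : ℂ) *
        ((c p.2 : ℝ) : ℂ) * cexp (((T * (Real.log p.2 - Real.log p.1) : ℝ) : ℂ) * I)))
      (f := fun T => ((wt (T / X) * ‖DD κ v T‖ ^ 2 : ℝ) : ℂ))
      (fun p _ => |c p.1| * |c p.2|) ?_ ?_ ?_ ?_ ?_
    · rw [intervalIntegral.integral_ofReal] at h
      have e : II = fun p : ℕ × ℕ => ∫ T in X..(2 * X), ((wt (T / X) : ℝ) : ℂ) *
          (((c p.1 : ℝ) : ℂ) * ((c p.2 : ℝ) : ℂ) *
            cexp (((T * (Real.log p.2 - Real.log p.1) : ℝ) : ℂ) * I)) := by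
        funext p
        rw [hII, hJdef]
        simp only
        rw [← intervalIntegral.integral_const_mul]
        refine intervalIntegral.integral_congr fun T _ => ?_
        ring
      rw [e]
      exact h
    · intro p
      refine Measurable.aestronglyMeasurable ?_
      have m1 : Measurable fun T : ℝ => ((wt (T / X) : ℝ) : ℂ) :=
        Complex.measurable_ofReal.comp (wt_meas.comp (measurable_id.div_const X))
      have m2 : Measurable fun T : ℝ =>
          cexp (((T * (Real.log p.2 - Real.log p.1) : ℝ) : ℂ) * I) := by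
        refine Continuous.measurable ?_
        fun_prop
      exact m1.mul (measurable_const.mul m2)
    · intro p
      refine Filter.Eventually.of_forall fun T hT => ?_
      have hT' := hw _ (hmem T hT)
      rw [norm_mul, norm_mul, norm_mul, Complex.norm_exp_ofReal_mul_I, mul_one, Complex.norm_real,
        Complex.norm_real, Complex.norm_real, Real.norm_eq_abs, Real.norm_eq_abs, Real.norm_eq_abs,
        abs_of_nonneg hT'.1]
      exact mul_le_of_le_one_left (by positivity) hT'.2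
    · exact Filter.Eventually.of_forall fun T _ => hcc
    · exact intervalIntegrable_const
    · refine Filter.Eventually.of_forall fun T _ => ?_
      have := (hsq T).mul_left ((wt (T / X) : ℝ) : ℂ)
      rw [← Complex.ofReal_mul] at this
      exact this
  -- the diagonal
  have hdiag : HasSum (fun p : ℕ × ℕ => if p.1 = p.2 then II p else 0)
      ((X * W0 * AA κ v : ℝ) : ℂ) := by
    have hinj : Function.Injective (fun n : ℕ => ((n, n) : ℕ × ℕ)) := by
      intro a b h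
      exact (Prod.mk.inj h).1
    rw [← hinj.hasSum_iff (by
      intro x hx
      rw [if_neg]
      intro h
      exact hx ⟨x.1, Prod.ext rfl h⟩)]
    have e : ((fun p : ℕ × ℕ => if p.1 = p.2 then II p else 0) ∘ fun n : ℕ => ((n, n) : ℕ × ℕ)) =
        fun n => ((X * W0 * c n ^ 2 : ℝ) : ℂ) := by
      funext n
      simp only [Function.comp, if_true, hII, sub_self, hJ0]
      push_cast
      ring
    rw [e]
    have h : HasSum (fun n => X * W0 * c n ^ 2) (X * W0 * AA κ v) :=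
      (hs3.hasSum).mul_left (X * W0)
    exact_mod_cast h
  have hdiff := hint.sub hdiag
  -- the majorant
  have ha0 : ∀ n : ℕ, 0 ≤ (n : ℝ) ^ 2 * c n ^ 2 := fun n => by positivity
  obtain ⟨k1, k2⟩ := kk_sum (fun n => (n : ℝ) ^ 2 * c n ^ 2) ha0 hs2
  obtain ⟨k3, k4⟩ := kk_sum' (fun n => (n : ℝ) ^ 2 * c n ^ 2) ha0 hs2
  have hmaj := (((hcc.hasSum.mul_left 4).add (k1.hasSum.mul_left 2)).add
    (k3.hasSum.mul_left 2)).mul_left (C1 / X)
  have hle := hdiff.norm_le_of_bounded hmaj (by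
    intro p
    have hkn := kk_nonneg p.1 p.2
    have hg0 : 0 ≤ C1 / X * (4 * (|c p.1| * |c p.2|) + 2 * ((p.1 : ℝ) ^ 2 * c p.1 ^ 2 * kk p.1 p.2) +
        2 * ((p.2 : ℝ) ^ 2 * c p.2 ^ 2 * kk p.1 p.2)) := by positivity
    by_cases hp : p.1 = p.2
    · rw [if_pos hp, sub_self, norm_zero]
      exact hg0
    · rw [if_neg hp, sub_zero]
      by_cases hp1 : p.1 = 0
      · rw [hII]
        simp only
        rw [hp1, hc0, Complex.ofReal_zero, zero_mul, zero_mul, norm_zero]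
        rw [hp1, hc0] at hg0
        exact hg0
      by_cases hp2 : p.2 = 0
      · rw [hII]
        simp only
        rw [hp2, hc0, Complex.ofReal_zero, mul_zero, zero_mul, norm_zero]
        rw [hp2, hc0] at hg0
        exact hg0
      have hξ : Real.log p.2 - Real.log p.1 ≠ 0 := by
        intro h
        have h' : Real.log p.2 = Real.log p.1 := by linarith
        have h1 : (0 : ℝ) < p.1 := by exact_mod_cast Nat.pos_of_ne_zero hp1
        have h2 : (0 : ℝ) < p.2 := by exact_mod_cast Nat.pos_of_ne_zero hp2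
        have h3 := Real.log_injOn_pos (Set.mem_Ioi.2 h2) (Set.mem_Ioi.2 h1) h'
        exact hp (by exact_mod_cast h3.symm)
      have h1 := offdiag hc0 hp
      have h2 := hJb _ hξ
      have h3 : ‖II p‖ = |c p.1| * |c p.2| * ‖J (Real.log p.2 - Real.log p.1)‖ := by
        rw [hII]
        simp only [norm_mul, Complex.norm_real, Real.norm_eq_abs]
      rw [h3]
      calc |c p.1| * |c p.2| * ‖J (Real.log p.2 - Real.log p.1)‖
          ≤ |c p.1| * |c p.2| * (C1 / (X * (Real.log p.2 - Real.log p.1) ^ 2)) :=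
            mul_le_mul_of_nonneg_left h2 (by positivity)
        _ = C1 / X * (1 / (Real.log p.2 - Real.log p.1) ^ 2 * (|c p.1| * |c p.2|)) := by
            rw [← div_div]; ring
        _ ≤ _ := mul_le_mul_of_nonneg_left h1 (by positivity))
  rw [← Complex.ofReal_sub, Complex.norm_real, Real.norm_eq_abs] at hle
  refine hle.trans ?_
  have hS1 : ∑' p : ℕ × ℕ, |c p.1| * |c p.2| ≤ C2 ^ 2 * Real.exp v := by
    have e1 := hcs.tsum_mul_tsum hcs hcc
    rw [← e1]
    have e2 : (0 : ℝ) ≤ ∑' n, |c n| := tsum_nonneg fun n => abs_nonneg _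
    have e3 : (∑' n, |c n|) * (∑' n, |c n|) ≤ (C2 * Real.exp (v / 2)) * (C2 * Real.exp (v / 2)) :=
      mul_self_le_mul_self e2 hb1
    have e4 : Real.exp v = Real.exp (v / 2) * Real.exp (v / 2) := by
      rw [← Real.exp_add]; congr 1; ring
    rw [e4]
    linarith
  have hS2 := k2.trans (mul_le_mul_of_nonneg_right hb2 HH_nonneg)
  have hS3 := k4.trans (mul_le_mul_of_nonneg_right hb2 HH_nonneg)
  have hfin : 4 * (∑' p : ℕ × ℕ, |c p.1| * |c p.2|) +
      2 * (∑' p : ℕ × ℕ, (p.1 : ℝ) ^ 2 * c p.1 ^ 2 * kk p.1 p.2) +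
      2 * (∑' p : ℕ × ℕ, (p.2 : ℝ) ^ 2 * c p.2 ^ 2 * kk p.1 p.2) ≤
      (4 * C2 ^ 2 + 4 * HH * C2) * (Real.exp v + Real.exp (2 * v)) := by
    have hH := HH_nonneg
    have q1 : 0 ≤ 4 * C2 ^ 2 * Real.exp (2 * v) := by positivity
    have q2 : 0 ≤ 4 * HH * C2 * Real.exp v := by positivity
    nlinarith
  calc C1 / X * (4 * (∑' p : ℕ × ℕ, |c p.1| * |c p.2|) +
      2 * (∑' p : ℕ × ℕ, (p.1 : ℝ) ^ 2 * c p.1 ^ 2 * kk p.1 p.2) +
      2 * (∑' p : ℕ × ℕ, (p.2 : ℝ) ^ 2 * c p.2 ^ 2 * kk p.1 p.2))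
      ≤ C1 / X * ((4 * C2 ^ 2 + 4 * HH * C2) * (Real.exp v + Real.exp (2 * v))) :=
        mul_le_mul_of_nonneg_left hfin (by positivity)
    _ = C1 * (4 * C2 ^ 2 + 4 * HH * C2) * (Real.exp v + Real.exp (2 * v)) / X := by ring

end

end Pool.Agent.Q247.AL
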